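/-
MP_41729c_an (coupling constants of Kadison-Kastler close II_1 factors).

Theorem: a class of groups G (normal amenable subgroup K with free letters and infinite
K-conjugacy classes; it contains S_∞ wr Γ for every group Γ, and all restricted direct sum
extensions with lawless amenable ICC summands permuted freely, e.g. A wr Γ, Γ infinite) such
that for M = L(G) in ANY normal representation and ANY II_1 factor N on the same Hilbert space,
d(M, N) < 10^(-13) implies dim_M H = dim_N H.  No bound on the coupling constant.

Proof in Pool/Agent/Helper93/SP (the distance property D_27 of M) and Pool/Agent/Helper93/SP2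
(arbitrary N), blocks proved by many members of the team.
-/
import Pool.Agent.Helper93.SP2.Fin2
import Pool.Agent.Helper93.SP2.IccW
import Pool.Agent.Helper93.SP2.SumA
import Pool.Agent.Helper93.SP2.SumI

set_option autoImplicit false

namespace Pool.Agent.Results.MP_41729c_an.UniformCoupling

open Pool.Agent.Helper93.SP

universe u v w

/-- The coupling constants of M and N are equal, for all II_1 factors M and N on H such that M is
the group factor of G in a normal representation and the Kadison-Kastler distance of M and N is
less than 10^(-13). -/
def EqualCoupling (G : Type u) [Group G] (H : Type v) [NormedAddCommGroup H]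
    [InnerProductSpace ℂ H] [CompleteSpace H] : Prop :=
  ∀ (M N : VonNeumannAlgebra H) (π : G →* unitary (H →L[ℂ] H)) (τM τN : (H →L[ℂ] H) → ℂ),
    IsIIOneFactor M → IsIIOneFactor N → IsGroupVN M π → IsTrace M τM → IsTrace N τN →
      kkDist M N < 1 / 10 ^ 13 → cDim M τM = cDim N τN

/-- (1) Uniform equality of coupling constants: M the group factor of a group G in the class (in
any normal representation), N any II_1 factor on the same space, Kadison-Kastler distance less
than 10^(-13).  (2) S_∞ wr Γ is in the class for every group Γ.  (3) G is in the class if K is the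
internal restricted direct sum of lawless amenable subgroups with infinite conjugacy classes which
are permuted by G, an element of G fixing an index if and only if it is in K (e.g. restricted wreath
products A wr Γ, Γ infinite). -/
theorem result :
    (∀ (G : Type u) [Group G] (K L : Subgroup G), Cls K L →
      ∀ (H : Type v) [NormedAddCommGroup H] [InnerProductSpace ℂ H] [CompleteSpace H],
        EqualCoupling G H) ∧
    (∀ (Γ : Type u) [Group Γ], Cls (SBase Γ) (SBase Γ)) ∧
    (∀ (G : Type u) (Y : Type w) [Group G] [MulAction G Y] [Infinite Y] (K : Subgroup G)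
        (A : Y → Subgroup G), FreeSum K A → (∀ y, Lawless (A y)) → (∀ y, Amen (A y)) →
        (∀ y, ∀ a ∈ A y, a ≠ 1 → {x : G | ∃ b ∈ A y, x = b * a * b⁻¹}.Infinite) →
        Cls K K) := by
  refine ⟨?_, ?_, ?_⟩
  · intro G _ K L hc H _ _ _ M N π τM τN hM hN hG hτM hτN hd
    exact cDim_eq K L hc M N hM hN π hG hd τM τN hτM hτN
  · intro Γ _
    exact cls_SBase Γ
  · intro G Y _ _ _ K A hs hl ha hi
    have hK : K.Normal := sum_normal K A hs
    refine ⟨hK, hK, le_rfl, sum_letters K A hs hl, sum_amen K A hs ha, ?_⟩
    refine sum_icc K A hs (fun y => ?_) hi
    obtain ⟨x, hx⟩ := hl y 1 (FreeGroup.of 0) (by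
      intro h
      have := congrArg (FreeGroup.lift fun _ : Fin 1 => Multiplicative.ofAdd (1 : ℤ)) h
      simp at this)
    refine ⟨x 0, (x 0).2, fun h => hx ?_⟩
    rw [FreeGroup.lift_apply_of]
    exact Subtype.ext h

end Pool.Agent.Results.MP_41729c_an.UniformCoupling
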